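import Pool.Agent.helper27.Probe.Basic
import Pool.Agent.helper99.TFW.Moll

/-! Module M11a: approximation of compactly supported `H¹` functions by test functions. -/

open MeasureTheory Metric Set Filter Topology
open scoped ContDiff ENNReal Convolution
open Pool.Agent.Helper99.TFW (moll eta eta_contDiff eta_compact eta_continuous eta_zero
  moll_contDiff memLp_moll tendsto_moll locInt_of_L2 moll_swap moll_integrand_swap moll_eq)

namespace Pool.Agent.helper27.Probe

/-- the derivative of the mollification of a function with a weak gradient -/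
theorem pd_moll {f : E → ℂ} {F : Fin 3 → E → ℂ} (h : H1 univ f F) (n : ℕ) (x : E) (i : Fin 3) :
    pd i (moll n f) x = moll n (F i) x := by
  have hmem : MemLp f 2 volume := by simpa using h.memLp
  have hmemg : MemLp (F i) 2 volume := by simpa using h.memLp_grad i
  have hlu := locInt_of_L2 hmem
  have hlg := locInt_of_L2 hmemg
  have h1 := (eta_compact n).hasFDerivAt_convolution_left (ContinuousLinearMap.lsmul ℝ ℝ)
    (((eta_contDiff n).of_le (by exact_mod_cast le_top))) hlu x
  have h2 : fderiv ℝ (moll n f) x = _ := h1.fderiv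
  unfold pd
  rw [h2, convolution_eq_swap]
  have hint : Integrable (fun t => ((ContinuousLinearMap.lsmul ℝ ℝ :
      ℝ →L[ℝ] ℂ →L[ℝ] ℂ).precompL E) (fderiv ℝ (eta n) (x - t)) (f t)) := by
    have h3 := ((eta_compact n).fderiv (𝕜 := ℝ)).convolutionExists_left
      ((ContinuousLinearMap.lsmul ℝ ℝ : ℝ →L[ℝ] ℂ →L[ℝ] ℂ).precompL E)
      ((eta_contDiff n).continuous_fderiv (by simp)) hlu x
    have h4 := (convolutionExistsAt_iff_integrable_swap).1 h3
    exact h4
  rw [ContinuousLinearMap.integral_apply hint]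
  have hd : ∀ t, HasFDerivAt (fun y => eta n (x - y))
      ((fderiv ℝ (eta n) (x - t)).comp (-(ContinuousLinearMap.id ℝ E))) t := by
    intro t
    have hd1 : HasFDerivAt (eta n) (fderiv ℝ (eta n) (x - t)) (x - t) :=
      (((eta_contDiff n).differentiable (by simp)) _).hasFDerivAt
    have hd2 : HasFDerivAt (fun y : E => x - y) (-(ContinuousLinearMap.id ℝ E)) t := by
      simpa using (hasFDerivAt_id t).const_sub x
    exact hd1.comp t hd2
  have hdC : ∀ t, pd i (fun y => ((eta n (x - y) : ℝ) : ℂ)) t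
      = ((fderiv ℝ (fun y => eta n (x - y)) t (e i) : ℝ) : ℂ) := by
    intro t
    have h3 : HasFDerivAt (fun y => ((eta n (x - y) : ℝ) : ℂ))
      (Complex.ofRealCLM.comp (fderiv ℝ (fun y => eta n (x - y)) t)) t :=
      Complex.ofRealCLM.hasFDerivAt.comp t (hd t).differentiableAt.hasFDerivAt
    unfold pd
    rw [h3.fderiv]
    rfl
  have h5 : ∀ t, (((ContinuousLinearMap.lsmul ℝ ℝ :
      ℝ →L[ℝ] ℂ →L[ℝ] ℂ).precompL E) (fderiv ℝ (eta n) (x - t)) (f t)) (e i) =
      - (f t * pd i (fun y => ((eta n (x - y) : ℝ) : ℂ)) t) := by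
    intro t
    rw [hdC, (hd t).fderiv]
    simp only [ContinuousLinearMap.precompL_apply, ContinuousLinearMap.lsmul_apply,
      ContinuousLinearMap.comp_apply, neg_apply,
      ContinuousLinearMap.id_apply, map_neg, Complex.real_smul]
    push_cast
    ring
  simp_rw [h5]
  rw [integral_neg]
  have hsm : ContDiff ℝ ∞ (fun y => eta n (x - y)) :=
    (eta_contDiff n).comp (contDiff_const.sub contDiff_id)
  have hcs : HasCompactSupport (fun y => eta n (x - y)) :=
    (eta_compact n).comp_homeomorph (Homeomorph.subLeft x)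
  have hT : Test univ (fun y => ((eta n (x - y) : ℝ) : ℂ)) :=
    ⟨Complex.ofRealCLM.contDiff.comp hsm, hcs.comp_left (g := fun x : ℝ => (x : ℂ)) (by simp),
      subset_univ _⟩
  have h6 := h.weak _ hT i
  rw [Measure.restrict_univ] at h6
  rw [h6, neg_neg, moll_swap]
  apply integral_congr_ae
  refine Eventually.of_forall fun t => ?_
  simp only [Complex.real_smul]
  ring

theorem moll_support {f : E → ℂ} {K : Set E} (hf0 : ∀ y ∉ K, f y = 0) (n : ℕ) :
    Function.support (moll n f) ⊆ cthickening (1 / ((n : ℝ) + 1)) K := by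
  intro x hx
  by_contra h
  apply hx
  unfold moll
  rw [integral_eq_zero_of_ae]
  refine Eventually.of_forall fun t => ?_
  simp only [Pi.zero_apply]
  by_cases ht : 1 / ((n : ℝ) + 1) ≤ ‖t‖
  · rw [eta_zero n t ht, zero_smul]
  · have : x - t ∉ K := by
      intro hK
      apply h
      refine mem_cthickening_of_dist_le x (x - t) _ K hK ?_
      rw [dist_eq_norm]
      simp only [sub_sub_cancel]
      exact (not_le.1 ht).le
    rw [hf0 _ this, smul_zero]

theorem eLpNorm_le_of_sq {f : E → ℂ} (hf : MemLp f 2 volume) {ε : ℝ≥0∞} (hε : ε ≠ ⊤)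
    (h : ∫ y, ‖f y‖ ^ 2 ≤ ε.toReal ^ 2) : eLpNorm f 2 volume ≤ ε := by
  have h1 := sq_eq (U := univ) (f := f) (by simpa using hf.1)
  unfold sq at h1
  rw [Measure.restrict_univ] at h1
  rw [h1] at h
  have h2 := (sq_le_sq₀ ENNReal.toReal_nonneg ENNReal.toReal_nonneg).1 h
  exact (ENNReal.toReal_le_toReal hf.2.ne hε).1 h2

theorem H1.approx {Ω K : Set E} (hΩ : IsOpen Ω) (hK : IsCompact K) (hKΩ : K ⊆ Ω) {f : E → ℂ}
    {F : Fin 3 → E → ℂ} (hf : H1 univ f F) (hf0 : ∀ y ∉ K, f y = 0) {ε : ℝ≥0∞} (hε : 0 < ε) :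
    ∃ φ, Test Ω φ ∧ eLpNorm (fun y => f y - φ y) 2 volume ≤ ε ∧
      ∀ i, eLpNorm (fun y => F i y - pd i φ y) 2 volume ≤ ε := by
  have hmem : MemLp f 2 volume := by simpa using hf.memLp
  have hmemg : ∀ i, MemLp (F i) 2 volume := fun i => by simpa using hf.memLp_grad i
  wlog hεt : ε ≠ ⊤ generalizing ε
  · obtain ⟨φ, h1, h2, h3⟩ := this (ε := 1) one_pos ENNReal.one_ne_top
    push Not at hεt
    subst hεt
    exact ⟨φ, h1, le_top, fun i => le_top⟩
  have hεr : 0 < ε.toReal ^ 2 := pow_pos (ENNReal.toReal_pos hε.ne' hεt) 2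
  -- support
  obtain ⟨δ, hδ, hδΩ⟩ := hK.exists_cthickening_subset_open hΩ hKΩ
  have e1 : ∀ᶠ n : ℕ in atTop, 1 / ((n : ℝ) + 1) < δ :=
    (tendsto_one_div_add_atTop_nhds_zero_nat (𝕜 := ℝ)).eventually (gt_mem_nhds hδ)
  have e2 : ∀ᶠ n : ℕ in atTop, ∫ x, ‖moll n f x - f x‖ ^ 2 < ε.toReal ^ 2 :=
    (tendsto_moll hmem).eventually (gt_mem_nhds hεr)
  have e3 : ∀ᶠ n : ℕ in atTop, ∀ i, ∫ x, ‖moll n (F i) x - F i x‖ ^ 2 < ε.toReal ^ 2 :=
    eventually_all.2 fun i => (tendsto_moll (hmemg i)).eventually (gt_mem_nhds hεr)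
  obtain ⟨n, h1, h2, h3⟩ := (e1.and (e2.and e3)).exists
  refine ⟨moll n f, ⟨moll_contDiff n (locInt_of_L2 hmem), ?_, ?_⟩, ?_, ?_⟩
  · exact HasCompactSupport.of_support_subset_isCompact hK.cthickening (moll_support hf0 n)
  · refine (closure_minimal (moll_support hf0 n) isClosed_cthickening).trans ?_
    exact (cthickening_mono h1.le K).trans hδΩ
  · refine eLpNorm_le_of_sq (hmem.sub (memLp_moll n hmem)) hεt ?_
    refine le_trans (le_of_eq ?_) h2.le
    refine integral_congr_ae (Eventually.of_forall fun y => ?_)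
    simp only [Pi.sub_apply, norm_sub_rev]
  · intro i
    have : (fun y => F i y - pd i (moll n f) y) = fun y => F i y - moll n (F i) y := by
      funext y; rw [pd_moll hf]
    rw [this]
    refine eLpNorm_le_of_sq ((hmemg i).sub (memLp_moll n (hmemg i))) hεt ?_
    refine le_trans (le_of_eq ?_) (h3 i).le
    refine integral_congr_ae (Eventually.of_forall fun y => ?_)
    simp only [Pi.sub_apply, norm_sub_rev]

end Pool.Agent.helper27.Probe
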