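import Pool.Agent.helper53.Probe.Weak
import Pool.Agent.helper53.Probe.M11a

/-! Module M11b: the energy identity. -/

open MeasureTheory Metric Set Filter Topology
open scoped ContDiff ENNReal ComplexConjugate

namespace Pool.Agent.helper27.Probe

theorem energy_identity {k : ℝ} {Ω : Set E} (hΩ : IsOpen Ω) {v : E → ℂ} {g : Fin 3 → E → ℂ}
    (hv : H1 Ω v g) (hh : WeakHelmholtz k Ω Ω v g) {χ : E → ℝ} (hχ : ContDiff ℝ ∞ χ)
    (hc : HasCompactSupport χ) (hs : tsupport χ ⊆ Ω) :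
    (∑ i, ∫ y in Ω, ‖(χ y : ℂ) * g i y + ((fderiv ℝ χ y (e i) : ℝ) : ℂ) * v y‖ ^ 2) =
      k ^ 2 * (∫ y in Ω, ‖(χ y : ℂ) * v y‖ ^ 2) +
        ∑ i, ∫ y in Ω, ‖((fderiv ℝ χ y (e i) : ℝ) : ℂ) * v y‖ ^ 2 := by
  have hd : Differentiable ℝ χ := hχ.differentiable (by simp)
  have hχ2 : ContDiff ℝ ∞ (fun y => χ y ^ 2) := hχ.pow 2
  have hc2 : HasCompactSupport (fun y => χ y ^ 2) := by
    have : (fun y => χ y ^ 2) = fun y => χ y * χ y := by funext y; ring
    rw [this]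
    exact hc.mul_right
  have hts : tsupport (fun y => χ y ^ 2) ⊆ tsupport χ := by
    refine closure_mono ?_
    intro y hy
    simp only [Function.mem_support] at hy ⊢
    intro h; apply hy; rw [h]; simp
  have hs2 : tsupport (fun y => χ y ^ 2) ⊆ Ω := hts.trans hs
  have hfd : ∀ y i, fderiv ℝ (fun y => χ y ^ 2) y (e i) = 2 * χ y * fderiv ℝ χ y (e i) := by
    intro y i
    have h : HasFDerivAt (fun y => χ y ^ 2) _ y := (hd y).hasFDerivAt.pow 2
    rw [h.fderiv]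
    simp
  have hf := H1_cutoff hΩ hv.conj hχ2 hc2 hs2
  set f : E → ℂ := fun y => ((χ y ^ 2 : ℝ) : ℂ) * conj (v y) with hfdef
  set F : Fin 3 → E → ℂ := fun i y => ((χ y ^ 2 : ℝ) : ℂ) * conj (g i y)
      + ((fderiv ℝ (fun y => χ y ^ 2) y (e i) : ℝ) : ℂ) * conj (v y) with hFdef
  have hf0 : ∀ y ∉ tsupport χ, f y = 0 := by
    intro y hy
    rw [hfdef]
    simp [image_eq_zero_of_notMem_tsupport hy]
  have hm : MemLp f 2 (volume.restrict Ω) := by
    have := hf.memLp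
    rw [Measure.restrict_univ] at this
    exact this.restrict Ω
  have hmg : ∀ i, MemLp (F i) 2 (volume.restrict Ω) := by
    intro i
    have := hf.memLp_grad i
    rw [Measure.restrict_univ] at this
    exact this.restrict Ω
  have hL := weak_extend hv.memLp hv.memLp_grad hh hm hmg (fun ε hε => by
    obtain ⟨φ, h1, h2, h3⟩ := H1.approx hΩ hc.isCompact hs hf hf0 hε
    exact ⟨φ, h1, (eLpNorm_mono_measure _ Measure.restrict_le_self).trans h2,
      fun i => (eLpNorm_mono_measure _ Measure.restrict_le_self).trans (h3 i)⟩)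
  -- real parts
  have hT := test_ofReal hχ hc hs
  have hbd : ∀ {ψ w : E → ℂ}, Continuous ψ → HasCompactSupport ψ → MemLp w 2 (volume.restrict Ω) →
      MemLp (fun y => ψ y * w y) 2 (volume.restrict Ω) := by
    intro ψ w hψ hcψ hw
    obtain ⟨C, hC⟩ := hψ.bounded_above_of_compact_support hcψ
    refine hw.of_le_mul (c := C) (hψ.aestronglyMeasurable.mul hw.1) (Eventually.of_forall fun y => ?_)
    rw [norm_mul]
    exact mul_le_mul_of_nonneg_right (hC y) (norm_nonneg _)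
  have m1 : MemLp (fun y => (χ y : ℂ) * v y) 2 (volume.restrict Ω) :=
    hbd hT.continuous hT.comp hv.memLp
  have m2 : ∀ i, MemLp (fun y => ((fderiv ℝ χ y (e i) : ℝ) : ℂ) * v y) 2 (volume.restrict Ω) := by
    intro i
    have := hbd (hT.continuous_pd i) (hT.comp_pd i) hv.memLp
    simpa only [pd_ofReal hd] using this
  have m3 : ∀ i, MemLp (fun y => (χ y : ℂ) * g i y + ((fderiv ℝ χ y (e i) : ℝ) : ℂ) * v y) 2
      (volume.restrict Ω) := fun i => (hbd hT.continuous hT.comp (hv.memLp_grad i)).add (m2 i)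
  have n1 : Integrable (fun y => ‖(χ y : ℂ) * v y‖ ^ 2) (volume.restrict Ω) :=
    (memLp_two_iff_integrable_sq_norm m1.1).1 m1
  have n2 : ∀ i, Integrable (fun y => ‖((fderiv ℝ χ y (e i) : ℝ) : ℂ) * v y‖ ^ 2)
      (volume.restrict Ω) := fun i => (memLp_two_iff_integrable_sq_norm (m2 i).1).1 (m2 i)
  have n3 : ∀ i, Integrable (fun y => ‖(χ y : ℂ) * g i y
      + ((fderiv ℝ χ y (e i) : ℝ) : ℂ) * v y‖ ^ 2) (volume.restrict Ω) :=
    fun i => (memLp_two_iff_integrable_sq_norm (m3 i).1).1 (m3 i)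
  have r1 : ∫ y in Ω, v y * f y = ((∫ y in Ω, ‖(χ y : ℂ) * v y‖ ^ 2 : ℝ) : ℂ) := by
    have h0 : ∫ y in Ω, ((‖(χ y : ℂ) * v y‖ ^ 2 : ℝ) : ℂ)
        = ((∫ y in Ω, ‖(χ y : ℂ) * v y‖ ^ 2 : ℝ) : ℂ) := integral_ofReal
    rw [← h0]
    refine integral_congr_ae (Eventually.of_forall fun y => ?_)
    simp only [hfdef]
    have := Complex.mul_conj (v y)
    rw [Complex.normSq_eq_norm_sq] at this
    have h4 : ((‖(χ y : ℂ) * v y‖ ^ 2 : ℝ) : ℂ) = (χ y : ℂ) ^ 2 * ((‖v y‖ ^ 2 : ℝ) : ℂ) := by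
      rw [norm_mul, mul_pow, Complex.norm_real, Real.norm_eq_abs, sq_abs]
      push_cast; ring
    rw [h4, ← this]
    push_cast
    ring
  have r2 : ∀ i y, (g i y * F i y).re = ‖(χ y : ℂ) * g i y
      + ((fderiv ℝ χ y (e i) : ℝ) : ℂ) * v y‖ ^ 2
      - ‖((fderiv ℝ χ y (e i) : ℝ) : ℂ) * v y‖ ^ 2 := by
    intro i y
    simp only [hFdef, hfd]
    generalize fderiv ℝ χ y (e i) = t
    generalize χ y = c
    generalize g i y = z
    generalize v y = w
    rw [← Complex.normSq_eq_norm_sq, ← Complex.normSq_eq_norm_sq, Complex.normSq_apply,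
      Complex.normSq_apply]
    generalize hq : c ^ 2 = q
    simp
    rw [← hq]
    ring
  have r3 : (∫ y in Ω, ∑ i, g i y * F i y).re
      = (∑ i, ∫ y in Ω, ‖(χ y : ℂ) * g i y + ((fderiv ℝ χ y (e i) : ℝ) : ℂ) * v y‖ ^ 2)
        - ∑ i, ∫ y in Ω, ‖((fderiv ℝ χ y (e i) : ℝ) : ℂ) * v y‖ ^ 2 := by
    have hgF : ∀ i, Integrable (fun y => g i y * F i y) (volume.restrict Ω) :=
      fun i => H1.integrable_mul (hv.memLp_grad i) (hmg i)
    rw [integral_finsetSum _ fun i _ => hgF i, Complex.re_sum, ← Finset.sum_sub_distrib]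
    refine Finset.sum_congr rfl fun i _ => ?_
    rw [← integral_sub (n3 i) (n2 i)]
    have := integral_re (𝕜 := ℂ) (hgF i)
    simp only [RCLike.re_eq_complex_re] at this
    rw [← this]
    exact integral_congr_ae (Eventually.of_forall fun y => r2 i y)
  have r4 := congrArg Complex.re hL
  rw [r3, r1] at r4
  have r5 : ((k : ℂ) ^ 2 * ((∫ y in Ω, ‖(χ y : ℂ) * v y‖ ^ 2 : ℝ) : ℂ)).re
      = k ^ 2 * ∫ y in Ω, ‖(χ y : ℂ) * v y‖ ^ 2 := by
    rw [← Complex.ofReal_pow, ← Complex.ofReal_mul, Complex.ofReal_re]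
  rw [r5] at r4
  linarith

end Pool.Agent.helper27.Probe
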