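import Pool.Agent.helper53.Probe.Weak
import Pool.Agent.helper61.Probe.M2
import Pool.Agent.helper14.Probe.M1

/-! Module M16: identities for the indicator. -/

open MeasureTheory Metric Set Filter Topology
open scoped ContDiff ENNReal ComplexConjugate

namespace Pool.Agent.helper27.Probe

/-- `∫_Ω = ∫_D + ∫_{Ω \ closure D}` if `∂D` is a null set -/
theorem integral_split {Ω D : Set E} (hΩ : IsOpen Ω) (hD : IsOpen D) (hDΩ : D ⊆ Ω)
    (h0 : volume (frontier D) = 0) {f : E → ℂ} (hf : IntegrableOn f Ω) :
    ∫ y in Ω, f y = (∫ y in D, f y) + ∫ y in Ω \ closure D, f y := by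
  have hdisj : Disjoint D (Ω \ closure D) :=
    Set.disjoint_left.2 fun y hy hy2 => hy2.2 (subset_closure hy)
  rw [← setIntegral_union hdisj ((hΩ.measurableSet).diff isClosed_closure.measurableSet)
    (hf.mono_set hDΩ) (hf.mono_set sdiff_subset)]
  refine setIntegral_congr_set ?_
  have hsub : D ∪ (Ω \ closure D) ⊆ Ω := union_subset hDΩ sdiff_subset
  have hdiff : Ω \ (D ∪ (Ω \ closure D)) ⊆ frontier D := by
    intro y hy
    have h1 : y ∉ D := fun h => hy.2 (Or.inl h)
    have h2 : y ∈ closure D := by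
      by_contra h
      exact hy.2 (Or.inr ⟨hy.1, h⟩)
    rw [hD.frontier_eq]
    exact ⟨h2, h1⟩
  exact (ae_le_set.2 (measure_mono_null hdiff h0)).antisymm (LE.le.eventuallyLE hsub)

/-- the form, split into scalar products -/
theorem form_eq {k : ℝ} {U : Set E} {u v : E → ℂ} {h g : Fin 3 → E → ℂ}
    (hu : MemLp u 2 (volume.restrict U)) (hh : ∀ i, MemLp (h i) 2 (volume.restrict U))
    (hv : MemLp v 2 (volume.restrict U)) (hg : ∀ i, MemLp (g i) 2 (volume.restrict U)) :
    form k U u h v g = (∑ i, ∫ y in U, h i y * conj (g i y))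
      - (k : ℂ) ^ 2 * ∫ y in U, u y * conj (v y) := by
  have i1 : ∀ i, Integrable (fun y => h i y * conj (g i y)) (volume.restrict U) :=
    fun i => H1.integrable_mul (hh i) (memLp_conj (hg i))
  have i2 : Integrable (fun y => u y * conj (v y)) (volume.restrict U) :=
    H1.integrable_mul hu (memLp_conj hv)
  unfold form
  rw [integral_sub (integrable_finsetSum _ fun i _ => i1 i) (i2.const_mul _),
    integral_finsetSum _ fun i _ => i1 i, integral_const_mul]

theorem form_conj {k : ℝ} {U : Set E} {u v : E → ℂ} {h g : Fin 3 → E → ℂ} :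
    conj (form k U u h v g) = form k U v g u h := by
  unfold form
  rw [← integral_conj]
  refine integral_congr_ae (Eventually.of_forall fun y => ?_)
  simp only [map_sub, map_sum, map_mul, map_pow, Complex.conj_conj, Complex.conj_ofReal]
  congr 1
  · refine Finset.sum_congr rfl fun i _ => mul_comm _ _
  · rw [mul_comm (v y)]

theorem pairing_self {U : Set E} {f : E → ℂ} :
    ∫ y in U, f y * conj (f y) = ((sq U f : ℝ) : ℂ) := by
  unfold sq
  have h0 : ∫ y in U, ((‖f y‖ ^ 2 : ℝ) : ℂ) = ((∫ y in U, ‖f y‖ ^ 2 : ℝ) : ℂ) := integral_ofReal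
  rw [← h0]
  refine integral_congr_ae (Eventually.of_forall fun y => ?_)
  simp only
  rw [Complex.mul_conj, Complex.normSq_eq_norm_sq]

theorem form_self {k : ℝ} {U : Set E} {v : E → ℂ} {g : Fin 3 → E → ℂ}
    (hv : MemLp v 2 (volume.restrict U)) (hg : ∀ i, MemLp (g i) 2 (volume.restrict U)) :
    form k U v g v g = ((en U v g - (k ^ 2 + 1) * sq U v : ℝ) : ℂ) := by
  rw [form_eq hv hg hv hg, pairing_self]
  simp only [pairing_self]
  unfold en
  push_cast
  ring

theorem form_add_left {k : ℝ} {U : Set E} {a b v : E → ℂ} {ga gb g : Fin 3 → E → ℂ}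
    (ha : MemLp a 2 (volume.restrict U)) (hga : ∀ i, MemLp (ga i) 2 (volume.restrict U))
    (hb : MemLp b 2 (volume.restrict U)) (hgb : ∀ i, MemLp (gb i) 2 (volume.restrict U))
    (hv : MemLp v 2 (volume.restrict U)) (hg : ∀ i, MemLp (g i) 2 (volume.restrict U)) :
    form k U (fun y => a y + b y) (fun i y => ga i y + gb i y) v g
      = form k U a ga v g + form k U b gb v g := by
  have e := form_eq (k := k) (u := fun y => a y + b y) (h := fun i y => ga i y + gb i y)
    (ha.add hb) (fun i => (hga i).add (hgb i)) hv hg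
  rw [e, form_eq ha hga hv hg, form_eq hb hgb hv hg]
  have h1 : ∀ i, ∫ y in U, (ga i y + gb i y) * conj (g i y)
      = (∫ y in U, ga i y * conj (g i y)) + ∫ y in U, gb i y * conj (g i y) := by
    intro i
    rw [← integral_add (H1.integrable_mul (hga i) (memLp_conj (hg i)))
      (H1.integrable_mul (hgb i) (memLp_conj (hg i)))]
    simp only [add_mul]
  have h2 : ∫ y in U, (a y + b y) * conj (v y)
      = (∫ y in U, a y * conj (v y)) + ∫ y in U, b y * conj (v y) := by
    rw [← integral_add (H1.integrable_mul ha (memLp_conj hv))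
      (H1.integrable_mul hb (memLp_conj hv))]
    simp only [add_mul]
  simp only [h1, h2, Finset.sum_add_distrib]
  ring

/-- `weak_split`, if `∂D` is a null set -/
theorem weak_split_of {k : ℝ} {Ω D : Set E} (hG : Geometry Ω D) (h0 : volume (frontier D) = 0)
    {v u : E → ℂ} {g h : Fin 3 → E → ℂ} (hv : H1 Ω v g) (hh : WeakHelmholtz k Ω Ω v g)
    (hu : MixedSol k Ω D v g u h) {φ : E → ℂ} (hφ : Test Ω φ) :
    (∫ y in Ω \ closure D, ∑ i, (h i y - g i y) * pd i φ y) -
      (k : ℂ) ^ 2 * ∫ y in Ω \ closure D, (u y - v y) * φ y =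
    (∫ y in D, ∑ i, g i y * pd i φ y) - (k : ℂ) ^ 2 * ∫ y in D, v y * φ y := by
  have hDΩ : D ⊆ Ω := subset_closure.trans hG.sub
  have hU : Ω \ closure D ⊆ Ω := sdiff_subset
  have hvU := hv.memLp.mono_measure (Measure.restrict_mono hU le_rfl)
  have hgU := fun i => (hv.memLp_grad i).mono_measure (Measure.restrict_mono hU le_rfl)
  have i1 : ∀ i, Integrable (fun y => g i y * pd i φ y) (volume.restrict Ω) :=
    fun i => H1.integrable_mul (hv.memLp_grad i) (hφ.memLp_pd i _ _)
  have i1U : ∀ i, Integrable (fun y => g i y * pd i φ y) (volume.restrict (Ω \ closure D)) :=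
    fun i => H1.integrable_mul (hgU i) (hφ.memLp_pd i _ _)
  have i2 : Integrable (fun y => v y * φ y) (volume.restrict Ω) :=
    H1.integrable_mul hv.memLp (hφ.memLp _ _)
  have i2U : Integrable (fun y => v y * φ y) (volume.restrict (Ω \ closure D)) :=
    H1.integrable_mul hvU (hφ.memLp _ _)
  have i3U : ∀ i, Integrable (fun y => h i y * pd i φ y) (volume.restrict (Ω \ closure D)) :=
    fun i => H1.integrable_mul (hu.h1.memLp_grad i) (hφ.memLp_pd i _ _)
  have i4U : Integrable (fun y => u y * φ y) (volume.restrict (Ω \ closure D)) :=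
    H1.integrable_mul hu.h1.memLp (hφ.memLp _ _)
  have s1 := integral_split hG.openΩ hG.openD hDΩ h0
    (f := fun y => ∑ i, g i y * pd i φ y) (integrable_finsetSum _ fun i _ => i1 i)
  have s2 := integral_split hG.openΩ hG.openD hDΩ h0 (f := fun y => v y * φ y) i2
  have e1 := hh φ hφ
  have e2 := hu.helm φ hφ
  have a1 : ∫ y in Ω \ closure D, ∑ i, (h i y - g i y) * pd i φ y
      = (∫ y in Ω \ closure D, ∑ i, h i y * pd i φ y)
        - ∫ y in Ω \ closure D, ∑ i, g i y * pd i φ y := by
    rw [← integral_sub (integrable_finsetSum _ fun i _ => i3U i)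
      (integrable_finsetSum _ fun i _ => i1U i)]
    refine integral_congr_ae (Eventually.of_forall fun y => ?_)
    simp only [sub_mul, Finset.sum_sub_distrib]
  have a2 : ∫ y in Ω \ closure D, (u y - v y) * φ y
      = (∫ y in Ω \ closure D, u y * φ y) - ∫ y in Ω \ closure D, v y * φ y := by
    rw [← integral_sub i4U i2U]
    simp only [sub_mul]
  rw [a1, a2]
  rw [s1, s2] at e1
  linear_combination e2 - e1

/-- `indicator_eq`, if `∂D` is a null set -/
theorem indicator_eq_of {k : ℝ} {Ω D : Set E} (hG : Geometry Ω D) (h0 : volume (frontier D) = 0)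
    {v u : E → ℂ} {g h : Fin 3 → E → ℂ} (hv : H1 Ω v g)
    (hu : MixedSol k Ω D v g u h) :
    indicator k Ω D v g u h = ((en D v g - (k ^ 2 + 1) * sq D v +
      (en (Ω \ closure D) (fun y => u y - v y) (fun i y => h i y - g i y) -
        (k ^ 2 + 1) * sq (Ω \ closure D) (fun y => u y - v y)) : ℝ) : ℂ) := by
  have hDΩ : D ⊆ Ω := subset_closure.trans hG.sub
  have hU : Ω \ closure D ⊆ Ω := sdiff_subset
  have hvU := hv.memLp.mono_measure (Measure.restrict_mono hU le_rfl)
  have hgU := fun i => (hv.memLp_grad i).mono_measure (Measure.restrict_mono hU le_rfl)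
  have hvD := hv.memLp.mono_measure (Measure.restrict_mono hDΩ le_rfl)
  have hgD := fun i => (hv.memLp_grad i).mono_measure (Measure.restrict_mono hDΩ le_rfl)
  have hwU : MemLp (fun y => u y - v y) 2 (volume.restrict (Ω \ closure D)) := hu.bdry.1.memLp
  have hgwU : ∀ i, MemLp (fun y => h i y - g i y) 2 (volume.restrict (Ω \ closure D)) :=
    fun i => hu.bdry.1.memLp_grad i
  -- `form_Ω(v,v) = form_D(v,v) + form_U(v,v)`
  have s1 : form k Ω v g v g = form k D v g v g + form k (Ω \ closure D) v g v g := by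
    unfold form
    refine integral_split hG.openΩ hG.openD hDΩ h0 ?_
    exact (integrable_finsetSum _ fun i _ => H1.integrable_mul (hv.memLp_grad i)
      (memLp_conj (hv.memLp_grad i))).sub
      ((H1.integrable_mul hv.memLp (memLp_conj hv.memLp)).const_mul _)
  -- `u = v + w`
  have s2 : ∀ (a : E → ℂ) (ga : Fin 3 → E → ℂ),
      MemLp a 2 (volume.restrict (Ω \ closure D)) →
      (∀ i, MemLp (ga i) 2 (volume.restrict (Ω \ closure D))) →
      form k (Ω \ closure D) u h a ga = form k (Ω \ closure D) v g a ga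
        + form k (Ω \ closure D) (fun y => u y - v y) (fun i y => h i y - g i y) a ga := by
    intro a ga ha hga
    rw [← form_add_left hvU hgU hwU hgwU ha hga]
    congr 1
    · funext y; ring
    · funext i y; ring
  -- `form_U(u,w) = 0`
  have s3 : form k (Ω \ closure D) u h (fun y => u y - v y) (fun i y => h i y - g i y) = 0 := by
    rw [form_eq hu.h1.memLp hu.h1.memLp_grad hwU hgwU]
    have hE := weak_extend hu.h1.memLp hu.h1.memLp_grad hu.helm (memLp_conj hwU)
      (fun i => memLp_conj (hgwU i)) (fun ε hε => by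
        obtain ⟨φ, h1, h2, h3⟩ := hu.bdry.2 ε hε
        have hd : Differentiable ℝ φ := h1.smooth.differentiable (by simp)
        have hc : ∀ f ψ : E → ℂ, eLpNorm (fun y => conj (f y) - conj (ψ y)) 2
            (volume.restrict (Ω \ closure D)) = eLpNorm (fun y => f y - ψ y) 2
            (volume.restrict (Ω \ closure D)) := by
          intro f ψ
          refine eLpNorm_congr_norm_ae (Eventually.of_forall fun y => ?_)
          rw [← map_sub]
          exact RCLike.norm_conj _
        refine ⟨fun y => conj (φ y), h1.conj, ?_, fun i => ?_⟩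
        · rw [hc]; exact h2
        · simp only [pd_conj hd]
          exact (hc (fun y => h i y - g i y) (pd i φ)).trans_le (h3 i))
    rw [integral_finsetSum _ fun i _ => H1.integrable_mul (hu.h1.memLp_grad i)
      (memLp_conj (hgwU i))] at hE
    rw [hE, sub_self]
  have s4 := s2 v g hvU hgU
  have s5 := s2 _ _ hwU hgwU
  have s6 := form_self (k := k) hwU hgwU
  have s7 := form_self (k := k) hvD hgD
  rw [s3] at s5
  have s8 : form k (Ω \ closure D) v g (fun y => u y - v y) (fun i y => h i y - g i y)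
      = -form k (Ω \ closure D) (fun y => u y - v y) (fun i y => h i y - g i y)
        (fun y => u y - v y) (fun i y => h i y - g i y) := by
    linear_combination -s5
  have s9 := congrArg conj s8
  rw [form_conj, map_neg, form_conj] at s9
  unfold indicator
  rw [s1, s4, s9, s6, s7]
  push_cast
  ring

theorem weak_split {k : ℝ} {Ω D : Set E} (hG : Geometry Ω D) {v u : E → ℂ}
    {g h : Fin 3 → E → ℂ} (hv : H1 Ω v g) (hh : WeakHelmholtz k Ω Ω v g)
    (hu : MixedSol k Ω D v g u h) {φ : E → ℂ} (hφ : Test Ω φ) :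
    (∫ y in Ω \ closure D, ∑ i, (h i y - g i y) * pd i φ y) -
      (k : ℂ) ^ 2 * ∫ y in Ω \ closure D, (u y - v y) * φ y =
    (∫ y in D, ∑ i, g i y * pd i φ y) - (k : ℂ) ^ 2 * ∫ y in D, v y * φ y :=
  weak_split_of hG (null_frontier hG.openD (shift_D hG)) hv hh hu hφ

theorem indicator_eq {k : ℝ} {Ω D : Set E} (hG : Geometry Ω D) {v u : E → ℂ}
    {g h : Fin 3 → E → ℂ} (hv : H1 Ω v g) (_hh : WeakHelmholtz k Ω Ω v g)
    (hu : MixedSol k Ω D v g u h) :
    indicator k Ω D v g u h = ((en D v g - (k ^ 2 + 1) * sq D v +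
      (en (Ω \ closure D) (fun y => u y - v y) (fun i y => h i y - g i y) -
        (k ^ 2 + 1) * sq (Ω \ closure D) (fun y => u y - v y)) : ℝ) : ℂ) :=
  indicator_eq_of hG (null_frontier hG.openD (shift_D hG)) hv hu

end Pool.Agent.helper27.Probe
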