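import Pool.Agent.helper27.Probe.Basic
import Pool.Agent.helper61.Probe.M3

/-! Module M12: cutoffs. -/

open MeasureTheory Metric Set Filter Topology
open scoped ContDiff ENNReal

namespace Pool.Agent.helper27.Probe

/-- the complex-valued version of a real cutoff function is a test function -/
theorem test_ofReal {Ω : Set E} {χ : E → ℝ} (hχ : ContDiff ℝ ∞ χ) (hc : HasCompactSupport χ)
    (hs : tsupport χ ⊆ Ω) : Test Ω (fun y => (χ y : ℂ)) where
  smooth := Complex.ofRealCLM.contDiff.comp hχ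
  comp := hc.comp_left (g := fun x : ℝ => (x : ℂ)) (by simp)
  supp := by
    refine subset_trans (closure_mono ?_) hs
    intro y hy
    simpa using hy

theorem pd_ofReal {χ : E → ℝ} (hχ : Differentiable ℝ χ) (i : Fin 3) (y : E) :
    pd i (fun y => (χ y : ℂ)) y = ((fderiv ℝ χ y (e i) : ℝ) : ℂ) := by
  unfold pd
  have h : HasFDerivAt (fun y => (χ y : ℂ)) (Complex.ofRealCLM.comp (fderiv ℝ χ y)) y :=
    Complex.ofRealCLM.hasFDerivAt.comp y (hχ y).hasFDerivAt
  rw [h.fderiv]
  rfl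

theorem Test.mul {Ω W : Set E} {φ ψ : E → ℂ} (h : Test Ω φ) (h' : Test W ψ) :
    Test Ω (fun y => φ y * ψ y) where
  smooth := h.smooth.mul h'.smooth
  comp := h.comp.mul_right
  supp := (closure_mono (Function.support_mul_subset_left _ _)).trans h.supp

theorem pd_mul {φ ψ : E → ℂ} (h : Differentiable ℝ φ) (h' : Differentiable ℝ ψ) (i : Fin 3) (y : E) :
    pd i (fun y => φ y * ψ y) y = φ y * pd i ψ y + pd i φ y * ψ y := by
  unfold pd
  have := (h y).hasFDerivAt.mul (h' y).hasFDerivAt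
  have h2 : fderiv ℝ (fun y => φ y * ψ y) y = _ := this.fderiv
  rw [h2]
  simp
  ring

/-- product of an `L²(Ω)` function and a test function on `Ω`, extended by zero -/
theorem memLp_mul_test {Ω : Set E} (hΩ : IsOpen Ω) {f : E → ℂ} (hf : MemLp f 2 (volume.restrict Ω))
    {ψ : E → ℂ} (hψ : Continuous ψ) (hc : HasCompactSupport ψ) (hs : ∀ y ∉ Ω, ψ y = 0) :
    MemLp (fun y => ψ y * f y) 2 volume := by
  have h1 : MemLp (fun y => ψ y * f y) 2 (volume.restrict Ω) := by
    obtain ⟨C, hC⟩ := hψ.bounded_above_of_compact_support hc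
    refine hf.of_le_mul (c := C) (hψ.aestronglyMeasurable.mul hf.1) (Eventually.of_forall fun y => ?_)
    rw [norm_mul]
    exact mul_le_mul_of_nonneg_right (hC y) (norm_nonneg _)
  have h2 : (fun y => ψ y * f y) = Ω.indicator (fun y => ψ y * f y) := by
    funext y
    by_cases hy : y ∈ Ω
    · rw [indicator_of_mem hy]
    · rw [indicator_of_notMem hy, hs y hy, zero_mul]
  rw [h2, memLp_indicator_iff_restrict hΩ.measurableSet]
  exact h1

theorem H1_cutoff {Ω : Set E} (hΩ : IsOpen Ω) {v : E → ℂ} {g : Fin 3 → E → ℂ} (hv : H1 Ω v g)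
    {χ : E → ℝ} (hχ : ContDiff ℝ ∞ χ) (hc : HasCompactSupport χ) (hs : tsupport χ ⊆ Ω) :
    H1 univ (fun y => (χ y : ℂ) * v y)
      (fun i y => (χ y : ℂ) * g i y + ((fderiv ℝ χ y (e i) : ℝ) : ℂ) * v y) := by
  have hT := test_ofReal hχ hc hs
  have hd : Differentiable ℝ χ := hχ.differentiable (by simp)
  have hm1 : ∀ f : E → ℂ, MemLp f 2 (volume.restrict Ω) → MemLp (fun y => (χ y : ℂ) * f y) 2 volume :=
    fun f hf => memLp_mul_test hΩ hf hT.continuous hT.comp (fun y hy => hT.zero_of_notMem hy)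
  have hm2 : ∀ i, MemLp (fun y => ((fderiv ℝ χ y (e i) : ℝ) : ℂ) * v y) 2 volume := by
    intro i
    have := memLp_mul_test hΩ hv.memLp (hT.continuous_pd i) (hT.comp_pd i)
      (fun y hy => hT.pd_zero_of_notMem hy i)
    simpa only [pd_ofReal hd] using this
  refine ⟨?_, ?_, ?_⟩
  · rw [Measure.restrict_univ]; exact hm1 v hv.memLp
  · intro i
    rw [Measure.restrict_univ]
    exact (hm1 _ (hv.memLp_grad i)).add (hm2 i)
  · intro φ hφ i
    rw [Measure.restrict_univ]
    have hTφ : Test Ω (fun y => (χ y : ℂ) * φ y) := hT.mul hφ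
    have hw := hv.weak _ hTφ i
    have hdT : Differentiable ℝ (fun y => (χ y : ℂ)) := hT.smooth.differentiable (by simp)
    have hdφ : Differentiable ℝ φ := hφ.smooth.differentiable (by simp)
    simp only [pd_mul hdT hdφ, pd_ofReal hd] at hw
    have e1 : ∫ y, (χ y : ℂ) * v y * pd i φ y = ∫ y in Ω, v y * ((χ y : ℂ) * pd i φ y) := by
      rw [setIntegral_eq_integral_of_forall_compl_eq_zero]
      · congr 1; funext y; ring
      · intro y hy
        rw [hT.zero_of_notMem hy, zero_mul, mul_zero]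
    have e2 : ∫ y, ((χ y : ℂ) * g i y + ((fderiv ℝ χ y (e i) : ℝ) : ℂ) * v y) * φ y
        = ∫ y in Ω, (g i y * ((χ y : ℂ) * φ y) + v y * (((fderiv ℝ χ y (e i) : ℝ) : ℂ) * φ y)) := by
      rw [setIntegral_eq_integral_of_forall_compl_eq_zero]
      · congr 1; funext y; ring
      · intro y hy
        rw [hT.zero_of_notMem hy, ← pd_ofReal hd, hT.pd_zero_of_notMem hy]
        ring
    have i1 : Integrable (fun y => g i y * ((χ y : ℂ) * φ y)) (volume.restrict Ω) :=
      H1.integrable_mul (hv.memLp_grad i) (hTφ.memLp _ _)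
    have hT2 : MemLp (fun y => ((fderiv ℝ χ y (e i) : ℝ) : ℂ) * φ y) 2 (volume.restrict Ω) := by
      have : Continuous (fun y => ((fderiv ℝ χ y (e i) : ℝ) : ℂ) * φ y) := by
        have h := hT.continuous_pd i
        simp only [funext (pd_ofReal hd i)] at h
        exact h.mul hφ.continuous
      exact this.memLp_of_hasCompactSupport hφ.comp.mul_left
    have i2 : Integrable (fun y => v y * (((fderiv ℝ χ y (e i) : ℝ) : ℂ) * φ y)) (volume.restrict Ω) :=
      H1.integrable_mul hv.memLp hT2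
    have i3 : Integrable (fun y => v y * ((χ y : ℂ) * pd i φ y)) (volume.restrict Ω) := by
      refine H1.integrable_mul hv.memLp ?_
      exact (hT.continuous.mul (hφ.continuous_pd i)).memLp_of_hasCompactSupport hT.comp.mul_right
    rw [e1, e2, integral_add i1 i2]
    have e3 : ∫ y in Ω, v y * ((χ y : ℂ) * pd i φ y + ((fderiv ℝ χ y (e i) : ℝ) : ℂ) * φ y)
        = (∫ y in Ω, v y * ((χ y : ℂ) * pd i φ y))
          + ∫ y in Ω, v y * (((fderiv ℝ χ y (e i) : ℝ) : ℂ) * φ y) := by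
      rw [← integral_add i3 i2]
      congr 1; funext y; ring
    rw [e3] at hw
    linear_combination hw

/-- `thin_poincare`, from the translation inequality -/
theorem thin_poincare_of {f : E → ℂ} {F : Fin 3 → E → ℂ} {T : Set E}
    (hT : MeasurableSet T) (hf0 : ∀ y ∉ T, f y = 0) {a : E} (ha : ∀ y ∈ T, y + a ∉ T)
    (htr : ∫ y in T, ‖f (y + a) - f y‖ ^ 2 ≤ ‖a‖ ^ 2 * ∑ i, sq univ (F i)) :
    sq univ f ≤ ‖a‖ ^ 2 * ∑ i, sq univ (F i) := by
  refine le_trans (le_of_eq ?_) htr
  unfold sq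
  rw [Measure.restrict_univ]
  have h1 : ∫ y in T, ‖f (y + a) - f y‖ ^ 2 = ∫ y in T, ‖f y‖ ^ 2 := by
    refine setIntegral_congr_fun hT fun y hy => ?_
    simp only [hf0 _ (ha y hy), zero_sub, norm_neg]
  rw [h1, setIntegral_eq_integral_of_forall_compl_eq_zero]
  intro y hy
  rw [hf0 y hy]; simp

theorem thin_poincare {f : E → ℂ} {F : Fin 3 → E → ℂ} (hf : H1 univ f F) {T : Set E}
    (hT : MeasurableSet T) (hf0 : ∀ y ∉ T, f y = 0) {a : E} (ha : ∀ y ∈ T, y + a ∉ T) :
    sq univ f ≤ ‖a‖ ^ 2 * ∑ i, sq univ (F i) :=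
  thin_poincare_of hT hf0 ha (trans_ineq isOpen_univ hf hT a (fun _ _ _ _ => mem_univ _)).2

end Pool.Agent.helper27.Probe
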