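import Pool.Agent.helper27.Probe.Defs

/-! Module M13: the needle is a null set; the cutoff function around the end of a needle. -/

open MeasureTheory Metric Set Filter Topology
open scoped ContDiff ENNReal Pointwise Manifold

namespace Pool.Agent.helper27.Probe

theorem span_ne_top {s : Set E} (hs : s.Finite) (hc : s.ncard < 3) : Submodule.span ℝ s ≠ ⊤ := by
  intro h
  have h1 : Module.finrank ℝ (Submodule.span ℝ s) = 3 := by
    rw [h, finrank_top]; simp
  have h2 : Module.finrank ℝ (Submodule.span ℝ s) ≤ s.ncard := by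
    have := hs.fintype
    rw [Set.ncard_eq_toFinset_card' s]
    exact finrank_span_le_card s
  omega

theorem plane_null (a b c : E) : volume {y : E | ∃ s t : ℝ, y = a + s • b - t • c} = 0 := by
  have h1 : volume ((Submodule.span ℝ ({b, c} : Set E) : Submodule ℝ E) : Set E) = 0 := by
    refine Measure.addHaar_submodule volume _ (span_ne_top (Set.toFinite _) ?_)
    exact lt_of_le_of_lt (Set.ncard_insert_le _ _) (by simp)
  have h2 : {y : E | ∃ s t : ℝ, y = a + s • b - t • c}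
      ⊆ (fun y => a + y) '' ((Submodule.span ℝ ({b, c} : Set E) : Submodule ℝ E) : Set E) := by
    rintro y ⟨s, t, rfl⟩
    refine ⟨s • b - t • c, ?_, by simp only; abel⟩
    refine Submodule.sub_mem _ (Submodule.smul_mem _ _ (Submodule.subset_span (by simp)))
      (Submodule.smul_mem _ _ (Submodule.subset_span (by simp)))
  refine measure_mono_null h2 ?_
  rw [Set.image_add_left, measure_preimage_add]
  exact h1

/-- a piecewise linear curve is contained in finitely many lines -/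
theorem Needle.lines {Ω : Set E} {x : E} {σ : ℝ → E} (hσ : Needle Ω x σ) :
    ∃ (m : ℕ) (a b : ℕ → E), ∀ s ∈ Icc (0 : ℝ) 1, ∃ i < m, σ s = a i + s • b i := by
  obtain ⟨m, t, h0, hm, hinc, hl⟩ := hσ.pl
  choose! a b hab using hl
  refine ⟨m, a, b, fun s hs => ?_⟩
  have key : ∀ j ≤ m, 0 < j → s ≤ t j → ∃ i < j, s ∈ Icc (t i) (t (i + 1)) := by
    intro j
    induction j with
    | zero => intro _ h; omega
    | succ j ih =>
      intro hj _ hsj
      by_cases h : s ≤ t j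
      · rcases Nat.eq_zero_or_pos j with rfl | hj0
        · exact ⟨0, by omega, by rw [h0]; exact hs.1, hsj⟩
        · obtain ⟨i, hi, hi2⟩ := ih (by omega) hj0 h
          exact ⟨i, by omega, hi2⟩
      · exact ⟨j, by omega, (not_le.1 h).le, hsj⟩
  have hm0 : 0 < m := by
    rcases Nat.eq_zero_or_pos m with h | h
    · subst h; rw [h0] at hm; norm_num at hm
    · exact h
  obtain ⟨i, hi, hi2⟩ := key m le_rfl hm0 (by rw [hm]; exact hs.2)
  exact ⟨i, hi, hab i hi s hi2⟩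

/-- the needle is a closed null set -/
theorem needle_null {Ω : Set E} {x : E} {σ : ℝ → E} (hσ : Needle Ω x σ) :
    IsClosed (σ '' Icc 0 1) ∧ volume (σ '' Icc 0 1) = 0 := by
  refine ⟨(isCompact_Icc.image_of_continuousOn hσ.cont).isClosed, ?_⟩
  obtain ⟨m, a, b, h⟩ := hσ.lines
  have hsub : σ '' Icc 0 1 ⊆ ⋃ i ∈ Finset.range m, {y : E | ∃ s t : ℝ, y = a i + s • b i - t • b i} := by
    rintro y ⟨s, hs, rfl⟩
    obtain ⟨i, hi, h2⟩ := h s hs
    simp only [mem_iUnion, Finset.mem_range]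
    exact ⟨i, hi, s, 0, by rw [h2]; simp⟩
  refine measure_mono_null hsub ?_
  exact measure_iUnion_null fun i => measure_iUnion_null fun _ => plane_null _ _ _

/-- the difference set of the needle is a null set -/
theorem Needle.diff_null {Ω : Set E} {x : E} {σ : ℝ → E} (hσ : Needle Ω x σ) :
    volume (σ '' Icc 0 1 - σ '' Icc 0 1) = 0 := by
  obtain ⟨m, a, b, h⟩ := hσ.lines
  have hsub : σ '' Icc 0 1 - σ '' Icc 0 1 ⊆ ⋃ p ∈ Finset.range m ×ˢ Finset.range m,
      {y : E | ∃ s t : ℝ, y = (a p.1 - a p.2) + s • b p.1 - t • b p.2} := by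
    rintro y ⟨_, ⟨s, hs, rfl⟩, _, ⟨t, ht, rfl⟩, rfl⟩
    obtain ⟨i, hi, h2⟩ := h s hs
    obtain ⟨j, hj, h3⟩ := h t ht
    simp only [mem_iUnion, Finset.mem_product, Finset.mem_range]
    refine ⟨(i, j), ⟨hi, hj⟩, s, t, ?_⟩
    simp only [h2, h3]
    abel
  refine measure_mono_null hsub ?_
  exact measure_iUnion_null fun i => measure_iUnion_null fun _ => plane_null _ _ _

theorem exists_small_notMem {N : Set E} (hN : volume N = 0) {η : ℝ} (hη : 0 < η) :
    ∃ a : E, ‖a‖ ≤ η ∧ a ∉ N := by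
  by_contra hcon
  push Not at hcon
  have h1 : ball (0 : E) η ⊆ N := fun a ha => hcon a (by simpa using (mem_ball_zero_iff.1 ha).le)
  have h2 := measure_mono_null h1 hN
  exact (measure_ball_pos volume (0 : E) hη).ne' h2

theorem exists_cutoff {Ω D : Set E} (hΩ : IsOpen Ω) (hD : IsOpen D) (hDΩ : D ⊆ Ω) {x : E}
    {σ : ℝ → E} (hx : x ∈ Ω) (hσ : Needle Ω x σ) (hxD : x ∉ closure D)
    (hσD : (σ '' Icc 0 1 ∩ D).Nonempty) {η : ℝ} (hη : 0 < η) :
    ∃ (χ : E → ℝ) (a : E) (K₁ K₂ : Set E) (r : ℝ), ContDiff ℝ ∞ χ ∧ HasCompactSupport χ ∧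
      tsupport χ ⊆ Ω ∧ (∀ y, 0 ≤ χ y ∧ χ y ≤ 1) ∧ ‖a‖ ≤ η ∧ (∀ y, χ y ≠ 0 → χ (y + a) = 0) ∧
      0 < r ∧ ball x r ⊆ Ω ∧ (∀ y ∈ ball x r, χ y = 1) ∧
      IsCompact K₁ ∧ K₁ ⊆ Ω \ σ '' Icc 0 1 ∧ IsCompact K₂ ∧ K₂ ⊆ D ∧
      (∀ y, fderiv ℝ χ y ≠ 0 → y ∈ K₁ ∪ K₂) := by
  obtain ⟨_, ⟨t₀, ht₀, rfl⟩, htD⟩ := hσD
  have hne0 : t₀ ≠ 0 := by
    rintro rfl
    have h1 := hσ.start
    rw [hΩ.frontier_eq] at h1
    exact h1.2 (hDΩ htD)
  have hne1 : t₀ ≠ 1 := by
    rintro rfl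
    rw [hσ.finish] at htD
    exact hxD (subset_closure htD)
  have ht0 : 0 < t₀ := lt_of_le_of_ne ht₀.1 (Ne.symm hne0)
  have ht1 : t₀ < 1 := lt_of_le_of_ne ht₀.2 hne1
  -- `τ`
  obtain ⟨τ, hτ0, hτt, hτD⟩ : ∃ τ > 0, τ < t₀ ∧ ∀ s ∈ Icc (t₀ - τ) t₀, σ s ∈ D := by
    have hc : ContinuousAt σ t₀ := hσ.cont.continuousAt (Icc_mem_nhds ht0 ht1)
    have h1 : ∀ᶠ s in 𝓝 t₀, σ s ∈ D := hc.eventually (hD.mem_nhds htD)
    obtain ⟨ε, hε, h2⟩ := Metric.eventually_nhds_iff.1 h1
    refine ⟨min (ε / 2) (t₀ / 2), by positivity, ?_, ?_⟩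
    · exact lt_of_le_of_lt (min_le_right _ _) (by linarith)
    · intro s hs
      apply h2
      rw [Real.dist_eq, abs_lt]
      have := min_le_left (ε / 2) (t₀ / 2)
      constructor <;> linarith [hs.1, hs.2]
  set S := σ '' Icc t₀ 1 with hS
  set S' := σ '' Icc 0 (t₀ - τ) with hS'
  set S₀ := σ '' Icc (t₀ - τ) t₀ with hS₀
  have hsub1 : Icc t₀ 1 ⊆ Icc (0 : ℝ) 1 := Icc_subset_Icc ht0.le le_rfl
  have hsub2 : Icc 0 (t₀ - τ) ⊆ Icc (0 : ℝ) 1 := Icc_subset_Icc le_rfl (by linarith)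
  have hsub3 : Icc (t₀ - τ) t₀ ⊆ Icc (0 : ℝ) 1 := Icc_subset_Icc (by linarith) ht1.le
  have hSc : IsCompact S := isCompact_Icc.image_of_continuousOn (hσ.cont.mono hsub1)
  have hSc' : IsCompact S' := isCompact_Icc.image_of_continuousOn (hσ.cont.mono hsub2)
  have hSc0 : IsCompact S₀ := isCompact_Icc.image_of_continuousOn (hσ.cont.mono hsub3)
  have hS0D : S₀ ⊆ D := by
    rintro _ ⟨s, hs, rfl⟩
    exact hτD s hs
  have hSΩ : S ⊆ Ω := by
    rintro _ ⟨s, hs, rfl⟩
    rcases hs.2.eq_or_lt with h | h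
    · rw [h, hσ.finish]; exact hx
    · exact hσ.inside s ⟨lt_of_lt_of_le ht0 hs.1, h⟩
  have hdisj : Disjoint S S' := by
    rw [Set.disjoint_left]
    rintro _ ⟨s, hs, rfl⟩ ⟨s', hs', he⟩
    have := hσ.inj (hsub2 hs') (hsub1 hs) he
    linarith [hs.1, hs'.2]
  have hxS : x ∈ S := ⟨1, ⟨ht1.le, le_rfl⟩, hσ.finish⟩
  -- the translation
  have hNull : volume (S - S) = 0 := by
    refine measure_mono_null ?_ hσ.diff_null
    exact Set.sub_subset_sub (image_mono hsub1) (image_mono hsub1)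
  obtain ⟨a, ha, haS⟩ := exists_small_notMem hNull hη
  have hSS : IsClosed (S - S) := by
    have h1 : (fun p : E × E => p.1 - p.2) '' (S ×ˢ S) = S - S := Set.image_prod _
    rw [← h1]
    exact ((hSc.prod hSc).image (by fun_prop)).isClosed
  obtain ⟨δ₁, hδ₁, hball⟩ := Metric.isOpen_iff.1 hSS.isOpen_compl a haS
  -- neighbourhoods of `S`
  obtain ⟨δ₂, hδ₂, hthick⟩ := hSc.exists_cthickening_subset_open
    (hΩ.inter hSc'.isClosed.isOpen_compl) (subset_inter hSΩ hdisj.subset_compl_right)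
  obtain ⟨ρ, hρ, hρD⟩ := hSc0.exists_cthickening_subset_open hD hS0D
  set δ := min (δ₁ / 3) δ₂ with hδ
  have hδpos : 0 < δ := by positivity
  have hδ1 : δ ≤ δ₁ / 3 := min_le_left _ _
  have hδ2 : δ ≤ δ₂ := min_le_right _ _
  have hthick2 : cthickening δ S ⊆ Ω ∩ S'ᶜ := (cthickening_mono hδ2 S).trans hthick
  -- the bump function
  obtain ⟨f, hf0, hf1, hf01⟩ := exists_contMDiffMap_zero_one_of_isClosed (n := (⊤ : ℕ∞)) 𝓘(ℝ, E)
    (s := (thickening δ S)ᶜ) (t := cthickening (δ / 2) S) isOpen_thickening.isClosed_compl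
    isClosed_cthickening (by
      rw [Set.disjoint_left]
      intro y hy hy2
      exact hy (cthickening_subset_thickening' hδpos (by linarith) S hy2))
  have hχ : ContDiff ℝ ∞ f := f.contMDiff.contDiff
  have hsupp : Function.support f ⊆ thickening δ S := by
    intro y hy
    by_contra h
    exact hy (hf0 h)
  have hts : tsupport f ⊆ cthickening δ S := closure_thickening_subset_cthickening δ S |>.trans' (closure_mono hsupp)
  have hK : IsCompact (cthickening δ S) := hSc.cthickening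
  refine ⟨f, a, cthickening δ S \ (thickening (δ / 2) S ∪ thickening ρ S₀), cthickening ρ S₀, δ / 2,
    hχ, ?_, ?_, ?_, ha, ?_, by positivity, ?_, ?_, ?_, ?_, hSc0.cthickening, hρD, ?_⟩
  · exact HasCompactSupport.of_support_subset_isCompact hK (hsupp.trans (thickening_subset_cthickening _ _))
  · exact hts.trans (hthick2.trans inter_subset_left)
  · exact fun y => ⟨(hf01 y).1, (hf01 y).2⟩
  · intro y hy
    have h1 : y ∈ thickening δ S := hsupp hy
    refine hf0 (fun h2 => ?_)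
    rw [mem_thickening_iff] at h1 h2
    obtain ⟨z1, hz1, hd1⟩ := h1
    obtain ⟨z2, hz2, hd2⟩ := h2
    have : z2 - z1 ∈ ball a δ₁ := by
      rw [mem_ball, dist_eq_norm]
      have e1 : z2 - z1 - a = (y - z1) - (y + a - z2) := by abel
      rw [e1]
      rw [dist_eq_norm] at hd1 hd2
      calc ‖(y - z1) - (y + a - z2)‖ ≤ ‖y - z1‖ + ‖y + a - z2‖ := norm_sub_le _ _
        _ < δ₁ := by linarith
    exact hball this ⟨z2, hz2, z1, hz1, rfl⟩
  · intro y hy
    have : y ∈ cthickening δ S := mem_cthickening_of_dist_le y x δ S hxS (by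
      have := mem_ball.1 hy; linarith)
    exact (hthick2 this).1
  · intro y hy
    exact hf1 (mem_cthickening_of_dist_le y x (δ / 2) S hxS (mem_ball.1 hy).le)
  · exact hK.diff (isOpen_thickening.union isOpen_thickening)
  · intro y hy
    refine ⟨(hthick2 hy.1).1, ?_⟩
    rintro ⟨s, hs, rfl⟩
    rcases le_total t₀ s with h | h
    · exact hy.2 (Or.inl (self_subset_thickening (by positivity) S ⟨s, ⟨h, hs.2⟩, rfl⟩))
    · rcases le_total (t₀ - τ) s with h2 | h2
      · exact hy.2 (Or.inr (self_subset_thickening hρ S₀ ⟨s, ⟨h2, h⟩, rfl⟩))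
      · exact (hthick2 hy.1).2 ⟨s, ⟨hs.1, h2⟩, rfl⟩
  · intro y hy
    have h1 : y ∈ cthickening δ S := by
      refine hts ?_
      exact support_fderiv_subset ℝ (f := f) hy
    by_cases h2 : y ∈ thickening ρ S₀
    · exact Or.inr (thickening_subset_cthickening _ _ h2)
    · refine Or.inl ⟨h1, ?_⟩
      rintro (h3 | h3)
      · apply hy
        have h4 : f =ᶠ[𝓝 y] fun _ => (1 : ℝ) := by
          filter_upwards [isOpen_thickening.mem_nhds h3] with z hz
          exact hf1 (thickening_subset_cthickening _ _ hz)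
        rw [h4.fderiv_eq]
        simp
      · exact h2 h3

end Pool.Agent.helper27.Probe
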