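import Pool.Agent.helper53.Probe.M12

/-! Weak equations tested with limits of test functions; complex conjugation. -/

open MeasureTheory Metric Set Filter Topology
open scoped ContDiff ENNReal ComplexConjugate

namespace Pool.Agent.helper27.Probe

theorem cs_enorm {U : Set E} {f ψ : E → ℂ} (hf : MemLp f 2 (volume.restrict U))
    (hψ : MemLp ψ 2 (volume.restrict U)) :
    ‖∫ y in U, f y * ψ y‖ₑ ≤ eLpNorm f 2 (volume.restrict U) * eLpNorm ψ 2 (volume.restrict U) := by
  have h : eLpNorm (f • ψ) 1 (volume.restrict U)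
      ≤ eLpNorm f 2 (volume.restrict U) * eLpNorm ψ 2 (volume.restrict U) :=
    eLpNorm_smul_le_mul_eLpNorm hψ.1 hf.1
  have h2 : ‖∫ y in U, f y * ψ y‖ₑ ≤ ∫⁻ y in U, ‖f y * ψ y‖ₑ := enorm_integral_le_lintegral_enorm _
  have h3 : ∫⁻ y in U, ‖f y * ψ y‖ₑ = eLpNorm (f • ψ) 1 (volume.restrict U) := by
    rw [eLpNorm_one_eq_lintegral_enorm]
    rfl
  rw [h3] at h2
  exact h2.trans h

theorem Test.conj {U : Set E} {φ : E → ℂ} (h : Test U φ) : Test U (fun y => conj (φ y)) where
  smooth := Complex.conjCLE.contDiff.comp h.smooth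
  comp := h.comp.comp_left (g := fun z : ℂ => conj z) (by simp)
  supp := by
    refine subset_trans (closure_mono ?_) h.supp
    intro y hy
    simpa using hy

theorem pd_conj {φ : E → ℂ} (h : Differentiable ℝ φ) (i : Fin 3) (y : E) :
    pd i (fun y => conj (φ y)) y = conj (pd i φ y) := by
  unfold pd
  have h1 : HasFDerivAt (fun y => conj (φ y)) ((Complex.conjCLE : ℂ →L[ℝ] ℂ).comp (fderiv ℝ φ y)) y :=
    (Complex.conjCLE : ℂ →L[ℝ] ℂ).hasFDerivAt.comp y (h y).hasFDerivAt
  rw [h1.fderiv]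
  rfl

theorem memLp_conj {μ : Measure E} {f : E → ℂ} (hf : MemLp f 2 μ) :
    MemLp (fun y => conj (f y)) 2 μ := by
  refine hf.of_le_mul (c := 1) (Complex.continuous_conj.comp_aestronglyMeasurable hf.1)
    (Eventually.of_forall fun y => ?_)
  simp

theorem H1.conj {U : Set E} {v : E → ℂ} {g : Fin 3 → E → ℂ} (hv : H1 U v g) :
    H1 U (fun y => conj (v y)) (fun i y => conj (g i y)) where
  memLp := memLp_conj hv.memLp
  memLp_grad i := memLp_conj (hv.memLp_grad i)
  weak φ hφ i := by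
    have h := hv.weak _ hφ.conj i
    have hd : Differentiable ℝ φ := hφ.smooth.differentiable (by simp)
    simp only [pd_conj hd] at h
    have h2 := congrArg conj h
    rw [← integral_conj, map_neg, ← integral_conj] at h2
    simpa using h2

/-- a weak equation can be tested with limits of test functions -/
theorem weak_extend {k : ℝ} {U W : Set E} {v f : E → ℂ} {g F : Fin 3 → E → ℂ}
    (hv : MemLp v 2 (volume.restrict U)) (hg : ∀ i, MemLp (g i) 2 (volume.restrict U))
    (hh : WeakHelmholtz k U W v g)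
    (hf : MemLp f 2 (volume.restrict U)) (hF : ∀ i, MemLp (F i) 2 (volume.restrict U))
    (happ : ∀ ε : ℝ≥0∞, 0 < ε → ∃ φ, Test W φ ∧
      eLpNorm (fun y => f y - φ y) 2 (volume.restrict U) ≤ ε ∧
      ∀ i, eLpNorm (fun y => F i y - pd i φ y) 2 (volume.restrict U) ≤ ε) :
    ∫ y in U, ∑ i, g i y * F i y = (k : ℂ) ^ 2 * ∫ y in U, v y * f y := by
  have hgF : ∀ i, Integrable (fun y => g i y * F i y) (volume.restrict U) :=
    fun i => H1.integrable_mul (hg i) (hF i)
  rw [← sub_eq_zero]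
  set L := (∫ y in U, ∑ i, g i y * F i y) - (k : ℂ) ^ 2 * ∫ y in U, v y * f y with hL
  set C : ℝ≥0∞ := (∑ i, eLpNorm (g i) 2 (volume.restrict U))
    + ‖(k : ℂ) ^ 2‖ₑ * eLpNorm v 2 (volume.restrict U) with hC
  have hCt : C ≠ ⊤ := by
    rw [hC]
    refine ENNReal.add_ne_top.2 ⟨?_, ?_⟩
    · exact ENNReal.sum_ne_top.2 fun i _ => (hg i).2.ne
    · exact ENNReal.mul_ne_top (by simp) hv.2.ne
  have key : ∀ ε : ℝ≥0∞, 0 < ε → ‖L‖ₑ ≤ C * ε := by
    intro ε hε
    obtain ⟨φ, hφ, h1, h2⟩ := happ ε hε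
    have hw := hh φ hφ
    have hgφ : ∀ i, Integrable (fun y => g i y * pd i φ y) (volume.restrict U) :=
      fun i => H1.integrable_mul (hg i) (hφ.memLp_pd i _ _)
    have hvf := H1.integrable_mul hv hf
    have hvφ := H1.integrable_mul hv (hφ.memLp 2 (volume.restrict U))
    have e1 : L = (∑ i, ∫ y in U, g i y * (F i y - pd i φ y))
        - (k : ℂ) ^ 2 * ∫ y in U, v y * (f y - φ y) := by
      have a1 : ∑ i, ∫ y in U, g i y * (F i y - pd i φ y)
          = (∫ y in U, ∑ i, g i y * F i y) - ∫ y in U, ∑ i, g i y * pd i φ y := by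
        rw [integral_finsetSum _ fun i _ => hgF i, integral_finsetSum _ fun i _ => hgφ i,
          ← Finset.sum_sub_distrib]
        refine Finset.sum_congr rfl fun i _ => ?_
        rw [← integral_sub (hgF i) (hgφ i)]
        simp only [mul_sub]
      have a2 : ∫ y in U, v y * (f y - φ y) = (∫ y in U, v y * f y) - ∫ y in U, v y * φ y := by
        rw [← integral_sub hvf hvφ]
        simp only [mul_sub]
      rw [a1, a2, hL]
      linear_combination hw
    rw [e1]
    calc ‖(∑ i, ∫ y in U, g i y * (F i y - pd i φ y))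
          - (k : ℂ) ^ 2 * ∫ y in U, v y * (f y - φ y)‖ₑ
        ≤ ‖∑ i, ∫ y in U, g i y * (F i y - pd i φ y)‖ₑ
          + ‖(k : ℂ) ^ 2 * ∫ y in U, v y * (f y - φ y)‖ₑ := enorm_sub_le
      _ ≤ (∑ i, ‖∫ y in U, g i y * (F i y - pd i φ y)‖ₑ)
          + ‖(k : ℂ) ^ 2 * ∫ y in U, v y * (f y - φ y)‖ₑ := by
          gcongr
          exact enorm_sum_le _ _
      _ ≤ (∑ i, eLpNorm (g i) 2 (volume.restrict U) * ε)
          + ‖(k : ℂ) ^ 2‖ₑ * (eLpNorm v 2 (volume.restrict U) * ε) := by
          gcongr with i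
          · exact (cs_enorm (hg i) ((hF i).sub (hφ.memLp_pd i _ _))).trans
              (mul_le_mul' le_rfl (h2 i))
          · rw [enorm_mul]
            gcongr
            exact (cs_enorm hv (hf.sub (hφ.memLp _ _))).trans (mul_le_mul' le_rfl h1)
      _ = C * ε := by
          rw [hC, add_mul, Finset.sum_mul, mul_assoc]
  have hlim : Tendsto (fun n : ℕ => C * ((n : ℝ≥0∞) + 1)⁻¹) atTop (𝓝 (C * 0)) := by
    refine ENNReal.Tendsto.const_mul ?_ (Or.inr hCt)
    have := ENNReal.tendsto_inv_nat_nhds_zero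
    have h2 := this.comp (tendsto_add_atTop_nat 1)
    refine h2.congr fun n => ?_
    simp
  rw [mul_zero] at hlim
  have h0 : ‖L‖ₑ ≤ 0 := ge_of_tendsto' hlim fun n => key _ (by simp)
  simpa using h0

end Pool.Agent.helper27.Probe
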